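import Pool.Agent.Helper33.DZ.Stmts

set_option autoImplicit false

open Finset

namespace Pool.Agent.Helper33.DZ

theorem rel_split (F : ℕ → ℝ) (n : ℕ) :
    ∑ h ∈ range (2 * n + 1), F h = ∑ i ∈ range (n + 1), F (2 * i) + ∑ j ∈ range n, F (2 * j + 1) := by
  induction n with
  | zero => simp
  | succ n ih =>
    rw [show 2 * (n + 1) + 1 = 2 * n + 1 + 1 + 1 by ring, Finset.sum_range_succ,
      Finset.sum_range_succ, ih, Finset.sum_range_succ (fun i => F (2 * i)) (n + 1),
      Finset.sum_range_succ (fun j => F (2 * j + 1)) n,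
      show 2 * (n + 1) = 2 * n + 1 + 1 by ring]
    ring

theorem rel_id (h1 : ST_STUF) (h2 : ST_SHUF) (n a : ℕ) (ha : 1 ≤ a) (ha' : a + 1 ≤ 2 * n) :
    dz (a + 1) (2 * n + 1 - a) + dz (2 * n - a + 1) (2 * n + 1 - (2 * n - a)) + zt (2 * n + 2) =
      ∑ h ∈ range (2 * n + 1), ((h.choose a : ℝ) + (h.choose (2 * n - a) : ℝ)) *
        dz (h + 1) (2 * n + 1 - h) := by
  have e1 := h1 (a + 1) (2 * n + 1 - a) (by omega) (by omega)
  have e2 := h2 (a + 1) (2 * n + 1 - a) (by omega) (by omega)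
  rw [show a + 1 + (2 * n + 1 - a) = 2 * n + 2 by omega] at e1 e2
  rw [show 2 * n - a + 1 = 2 * n + 1 - a by omega, show 2 * n + 1 - (2 * n - a) = a + 1 by omega,
    ← e1, e2, Finset.sum_range_succ']
  have e3 : ((0 : ℕ).choose a : ℝ) + ((0 : ℕ).choose (2 * n - a) : ℝ) = 0 := by
    rw [Nat.choose_eq_zero_of_lt (by omega : 0 < a),
      Nat.choose_eq_zero_of_lt (by omega : 0 < 2 * n - a)]
    simp
  rw [e3, zero_mul, add_zero]
  rw [show 2 * n + 2 - 1 = 2 * n + 1 by omega]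
  rw [show Finset.Icc 2 (2 * n + 1) = Finset.Ico 2 (2 * n + 2) by ext x; simp; omega,
    Finset.sum_Ico_eq_sum_range]
  rw [show 2 * n + 2 - 2 = 2 * n by omega]
  apply Finset.sum_congr rfl
  intro i hi
  rw [show 2 + i - 1 = i + 1 by omega, show a + 1 - 1 = a by omega,
    show 2 * n + 1 - a - 1 = 2 * n - a by omega, show 2 + i = i + 1 + 1 by omega,
    show 2 * n + 2 - (i + 1 + 1) = 2 * n + 1 - (i + 1) by omega]

theorem rel_main (h1 : ST_STUF) (h2 : ST_SHUF) (h3 : ST_EVEN) (h4 : ST_ANTI) (h5 : ST_ALG1)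
    (n : ℕ) (c : ℕ → ℚ) (hc : Per (2 * n) c) (hn : 1 ≤ n) :
    ∃ κ : ℚ, ∑ i ∈ range (n + 1),
      ((hh (2 * n) c (2 * i) / ((2 * n).choose (2 * i) : ℚ) : ℚ) : ℝ) *
        dz (2 * i + 1) (2 * n + 1 - 2 * i) = (κ : ℝ) * zt (2 * n + 2) := by
  obtain ⟨-, hz, hw⟩ := h4 (2 * n) c hc
  set H : ℕ → ℚ := fun a => hh (2 * n) c a with hH
  set D : ℕ → ℝ := fun a => dz (a + 1) (2 * n + 1 - a) with hD
  set Z : ℝ := zt (2 * n + 2) with hZ
  set β : ℕ → ℚ := fun a => (-1) ^ (a + 1) * (H a + H (2 * n - a)) with hβ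
  set b : ℕ → ℚ := fun a => β a / ((2 * n).choose a : ℚ) with hb
  have hH0 : H 0 = 0 := hz
  have hHw : H (2 * n) = 0 := hw
  have hb0 : b 0 = 0 := by simp [hb, hβ, hH0, hHw]
  have hbw : b (2 * n) = 0 := by simp [hb, hβ, hH0, hHw]
  have hbs : ∀ a, a ≤ 2 * n → b (2 * n - a) = b a := by
    intro a ha
    simp only [hb, hβ]
    rw [Nat.choose_symm ha, show 2 * n - (2 * n - a) = a by omega]
    congr 1
    rw [add_comm (H (2 * n - a))]
    congr 1
    rcases Nat.even_or_odd a with h | h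
    · rw [Odd.neg_one_pow (Even.add_one ((Nat.even_sub ha).2 (by simp [h]))),
        Odd.neg_one_pow h.add_one]
    · have : Odd (2 * n - a) := by
        obtain ⟨t, rfl⟩ := h
        exact ⟨n - t - 1, by omega⟩
      rw [Even.neg_one_pow this.add_one, Even.neg_one_pow h.add_one]
  -- the identity multiplied by `b a`
  have hmul : ∀ a ∈ range (2 * n + 1), (b a : ℝ) * (D a + D (2 * n - a) + Z) =
      (b a : ℝ) * ∑ h ∈ range (2 * n + 1), ((h.choose a : ℝ) + (h.choose (2 * n - a) : ℝ)) * D h := by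
    intro a ha
    rw [Finset.mem_range] at ha
    rcases Nat.eq_zero_or_pos a with h | h
    · subst h; rw [hb0]; simp
    · rcases Nat.lt_or_ge a (2 * n) with h' | h'
      · rw [rel_id h1 h2 n a h (by omega)]
      · have : a = 2 * n := by omega
        subst this; rw [hbw]; simp
  have hsum := Finset.sum_congr rfl hmul
  have hL : ∑ a ∈ range (2 * n + 1), (b a : ℝ) * (D a + D (2 * n - a) + Z) =
      2 * ∑ a ∈ range (2 * n + 1), (b a : ℝ) * D a + (∑ a ∈ range (2 * n + 1), (b a : ℝ)) * Z := by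
    have h6 : ∑ a ∈ range (2 * n + 1), (b a : ℝ) * D (2 * n - a) =
        ∑ a ∈ range (2 * n + 1), (b a : ℝ) * D a := by
      rw [← Finset.sum_range_reflect (fun a => (b a : ℝ) * D a) (2 * n + 1)]
      apply Finset.sum_congr rfl
      intro a ha
      rw [Finset.mem_range] at ha
      rw [show 2 * n + 1 - 1 - a = 2 * n - a by omega, hbs a (by omega)]
    calc ∑ a ∈ range (2 * n + 1), (b a : ℝ) * (D a + D (2 * n - a) + Z)
        = ∑ a ∈ range (2 * n + 1), ((b a : ℝ) * D a + (b a : ℝ) * D (2 * n - a) + (b a : ℝ) * Z) := by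
          apply Finset.sum_congr rfl; intro a _; ring
      _ = _ := by
          rw [Finset.sum_add_distrib, Finset.sum_add_distrib, h6, Finset.sum_mul]; ring
  have hR : ∑ a ∈ range (2 * n + 1), (b a : ℝ) *
      ∑ h ∈ range (2 * n + 1), ((h.choose a : ℝ) + (h.choose (2 * n - a) : ℝ)) * D h =
      2 * ∑ h ∈ range (2 * n + 1), (∑ a ∈ range (2 * n + 1), (b a : ℝ) * (h.choose a : ℝ)) * D h := by
    have h7 : ∀ h : ℕ, ∑ a ∈ range (2 * n + 1), (b a : ℝ) * (h.choose (2 * n - a) : ℝ) =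
        ∑ a ∈ range (2 * n + 1), (b a : ℝ) * (h.choose a : ℝ) := by
      intro h
      rw [← Finset.sum_range_reflect (fun a => (b a : ℝ) * (h.choose a : ℝ)) (2 * n + 1)]
      apply Finset.sum_congr rfl
      intro a ha
      rw [Finset.mem_range] at ha
      rw [show 2 * n + 1 - 1 - a = 2 * n - a by omega, hbs a (by omega)]
    simp_rw [Finset.mul_sum]
    rw [Finset.sum_comm]
    apply Finset.sum_congr rfl
    intro h _
    calc ∑ a ∈ range (2 * n + 1), (b a : ℝ) * (((h.choose a : ℝ) + (h.choose (2 * n - a) : ℝ)) * D h)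
        = (∑ a ∈ range (2 * n + 1), (b a : ℝ) * (h.choose a : ℝ) +
          ∑ a ∈ range (2 * n + 1), (b a : ℝ) * (h.choose (2 * n - a) : ℝ)) * D h := by
          rw [← Finset.sum_add_distrib, Finset.sum_mul]
          apply Finset.sum_congr rfl; intro a _; ring
      _ = _ := by rw [h7]; ring
  have hC : ∀ h ∈ range (2 * n + 1), ∑ a ∈ range (2 * n + 1), b a * (h.choose a : ℚ) =
      (2 * H h - H (2 * n - h)) / ((2 * n).choose h : ℚ) := by
    intro h hh'
    rw [Finset.mem_range] at hh'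
    have e5 := h5 (2 * n) c (even_two_mul n) hc h (by omega)
    have hsub : ∑ a ∈ range (2 * n + 1), b a * (h.choose a : ℚ) =
        ∑ a ∈ range (h + 1), b a * (h.choose a : ℚ) := by
      symm
      apply Finset.sum_subset
      · intro x hx; rw [Finset.mem_range] at hx ⊢; omega
      · intro x _ hx
        rw [Finset.mem_range, not_lt] at hx
        rw [Nat.choose_eq_zero_of_lt (by omega : h < x)]; simp
    have hne : ((2 * n).choose h : ℚ) ≠ 0 := by
      exact_mod_cast (Nat.choose_pos (by omega : h ≤ 2 * n)).ne'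
    rw [hsub, eq_div_iff hne, Finset.sum_mul]
    rw [← e5]
    apply Finset.sum_congr rfl
    intro a ha
    rw [Finset.mem_range] at ha
    have hne2 : ((2 * n).choose a : ℚ) ≠ 0 := by
      exact_mod_cast (Nat.choose_pos (by omega : a ≤ 2 * n)).ne'
    have hm : ((2 * n).choose h : ℚ) * (h.choose a : ℚ) =
        ((2 * n).choose a : ℚ) * ((2 * n - a).choose (h - a) : ℚ) := by
      exact_mod_cast Nat.choose_mul (n := 2 * n) (by omega : a ≤ h)
    have : b a * (h.choose a : ℚ) * ((2 * n).choose h : ℚ) =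
        β a * ((2 * n - a).choose (h - a) : ℚ) := by
      simp only [hb]
      rw [mul_assoc, mul_comm (h.choose a : ℚ), hm]
      field_simp
    rw [this]
    simp only [hβ]
    ring
  have hC' : ∀ h ∈ range (2 * n + 1), (∑ a ∈ range (2 * n + 1), (b a : ℝ) * (h.choose a : ℝ)) * D h =
      (((2 * H h - H (2 * n - h)) / ((2 * n).choose h : ℚ) : ℚ) : ℝ) * D h := by
    intro h hh'
    rw [← hC h hh']
    push_cast
    rfl
  rw [hL, hR, Finset.sum_congr rfl hC'] at hsum
  -- the combined relation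
  have hcomb : ∑ h ∈ range (2 * n + 1),
      (((2 * H h - H (2 * n - h) - β h) / ((2 * n).choose h : ℚ) : ℚ) : ℝ) * D h =
      (((∑ a ∈ range (2 * n + 1), b a) / 2 : ℚ) : ℝ) * Z := by
    have e6 : ∑ h ∈ range (2 * n + 1),
        (((2 * H h - H (2 * n - h) - β h) / ((2 * n).choose h : ℚ) : ℚ) : ℝ) * D h =
        ∑ h ∈ range (2 * n + 1), (((2 * H h - H (2 * n - h)) / ((2 * n).choose h : ℚ) : ℚ) : ℝ) * D h
          - ∑ h ∈ range (2 * n + 1), (b h : ℝ) * D h := by
      rw [← Finset.sum_sub_distrib]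
      apply Finset.sum_congr rfl
      intro h _
      have e9 : (2 * H h - H (2 * n - h) - β h) / ((2 * n).choose h : ℚ) =
          (2 * H h - H (2 * n - h)) / ((2 * n).choose h : ℚ) - b h := sub_div _ _ _
      rw [e9, Rat.cast_sub, sub_mul]
    rw [e6, Rat.cast_div, Rat.cast_sum, Rat.cast_ofNat]
    linarith
  rw [rel_split] at hcomb
  set q : ℕ → ℚ := fun h => H h / ((2 * n).choose h : ℚ) with hq
  have hev : ∑ i ∈ range (n + 1),
      (((2 * H (2 * i) - H (2 * n - 2 * i) - β (2 * i)) / ((2 * n).choose (2 * i) : ℚ) : ℚ) : ℝ) *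
        D (2 * i) = 3 * ∑ i ∈ range (n + 1), (q (2 * i) : ℝ) * D (2 * i) := by
    rw [Finset.mul_sum]
    apply Finset.sum_congr rfl
    intro i _
    have : (2 * H (2 * i) - H (2 * n - 2 * i) - β (2 * i)) / ((2 * n).choose (2 * i) : ℚ) =
        3 * q (2 * i) := by
      simp only [hβ, hq]
      rw [Odd.neg_one_pow (even_two_mul i).add_one]
      ring
    rw [this]
    push_cast
    ring
  have hHodd : ∀ j, j < n → H (2 * n - (2 * j + 1)) = H (2 * j + 1) := by
    intro j hj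
    have e7 := hc.rel (2 * j + 1) (by omega)
    rw [hc.odd _ ⟨j, rfl⟩] at e7
    simp only [hH]
    linarith
  have hod : ∑ j ∈ range n,
      (((2 * H (2 * j + 1) - H (2 * n - (2 * j + 1)) - β (2 * j + 1)) /
        ((2 * n).choose (2 * j + 1) : ℚ) : ℚ) : ℝ) * D (2 * j + 1) =
      - ∑ j ∈ range n, (q (2 * j + 1) : ℝ) * D (2 * j + 1) := by
    rw [← Finset.sum_neg_distrib]
    apply Finset.sum_congr rfl
    intro j hj
    rw [Finset.mem_range] at hj
    have : (2 * H (2 * j + 1) - H (2 * n - (2 * j + 1)) - β (2 * j + 1)) /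
        ((2 * n).choose (2 * j + 1) : ℚ) = - q (2 * j + 1) := by
      simp only [hβ, hq]
      rw [hHodd j hj, Even.neg_one_pow (by exact ⟨j + 1, by ring⟩)]
      ring
    rw [this]
    push_cast
    ring
  rw [hev, hod] at hcomb
  -- the odd part is a rational multiple of `Z`
  have hrat : ∀ j, ∃ r : ℚ, j < n → D (2 * j + 1) + D (2 * n - (2 * j + 1)) = (r : ℝ) * Z := by
    intro j
    by_cases hj : j < n
    · obtain ⟨r, hr⟩ := h3 (j + 1) (n - j) (by omega) (by omega)
      have e8 := h1 (2 * j + 2) (2 * n - 2 * j) (by omega) (by omega)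
      refine ⟨r - 1, fun _ => ?_⟩
      rw [show 2 * (j + 1) + 2 * (n - j) = 2 * n + 2 by omega, show 2 * (j + 1) = 2 * j + 2 by ring,
        show 2 * (n - j) = 2 * n - 2 * j by omega] at hr
      rw [show 2 * j + 2 + (2 * n - 2 * j) = 2 * n + 2 by omega] at e8
      simp only [hD, hZ]
      rw [show 2 * j + 1 + 1 = 2 * j + 2 by ring,
        show 2 * n + 1 - (2 * j + 1) = 2 * n - 2 * j by omega,
        show 2 * n - (2 * j + 1) + 1 = 2 * n - 2 * j by omega,
        show 2 * n + 1 - (2 * n - (2 * j + 1)) = 2 * j + 2 by omega]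
      push_cast
      linarith
    · exact ⟨0, fun h => absurd h hj⟩
  choose r hr using hrat
  have hrefl : ∑ j ∈ range n, (q (2 * j + 1) : ℝ) * D (2 * n - (2 * j + 1)) =
      ∑ j ∈ range n, (q (2 * j + 1) : ℝ) * D (2 * j + 1) := by
    rw [← Finset.sum_range_reflect (fun j => (q (2 * j + 1) : ℝ) * D (2 * j + 1)) n]
    apply Finset.sum_congr rfl
    intro j hj
    rw [Finset.mem_range] at hj
    rw [show 2 * (n - 1 - j) + 1 = 2 * n - (2 * j + 1) by omega]
    congr 2
    simp only [hq]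
    rw [hHodd j hj, Nat.choose_symm (by omega : 2 * j + 1 ≤ 2 * n)]
  have hodd2 : 2 * ∑ j ∈ range n, (q (2 * j + 1) : ℝ) * D (2 * j + 1) =
      ((∑ j ∈ range n, q (2 * j + 1) * r j : ℚ) : ℝ) * Z := by
    have : 2 * ∑ j ∈ range n, (q (2 * j + 1) : ℝ) * D (2 * j + 1) =
        ∑ j ∈ range n, ((q (2 * j + 1) : ℝ) * D (2 * j + 1) +
          (q (2 * j + 1) : ℝ) * D (2 * n - (2 * j + 1))) := by
      rw [Finset.sum_add_distrib, hrefl]; ring
    rw [this]
    push_cast
    rw [Finset.sum_mul]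
    apply Finset.sum_congr rfl
    intro j hj
    rw [Finset.mem_range] at hj
    rw [← mul_add, hr j hj]
    ring
  refine ⟨((∑ a ∈ range (2 * n + 1), b a) / 2 + (∑ j ∈ range n, q (2 * j + 1) * r j) / 2) / 3, ?_⟩
  have hfin : ∑ i ∈ range (n + 1),
      ((hh (2 * n) c (2 * i) / ((2 * n).choose (2 * i) : ℚ) : ℚ) : ℝ) *
        dz (2 * i + 1) (2 * n + 1 - 2 * i) = ∑ i ∈ range (n + 1), (q (2 * i) : ℝ) * D (2 * i) := rfl
  rw [hfin]
  push_cast at hcomb hodd2 ⊢
  linarith

theorem st_REL (h1 : ST_STUF) (h2 : ST_SHUF) (h3 : ST_EVEN) (h4 : ST_ANTI) (h5 : ST_ALG1) :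
    ST_REL := by
  intro m c hm hc
  obtain ⟨n, rfl⟩ : ∃ n, m = n + 2 := ⟨m - 2, by omega⟩
  rw [show 2 * (n + 2) - 2 = 2 * (n + 1) by omega] at hc ⊢
  obtain ⟨κ, hκ⟩ := rel_main h1 h2 h3 h4 h5 (n + 1) c hc (by omega)
  obtain ⟨-, hz, hw⟩ := h4 _ c hc
  refine ⟨κ, ?_⟩
  rw [show 2 * (n + 2) = 2 * (n + 1) + 2 by ring, ← hκ, Finset.sum_range_succ,
    Finset.sum_range_succ']
  rw [hw]
  rw [show 2 * 0 = 0 by ring, hz]
  simp only [zero_div, Rat.cast_zero, zero_mul, add_zero]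
  rw [show n + 2 - 2 = n by omega]
  apply Finset.sum_congr rfl
  intro i _
  rw [show 2 * (i + 1) = 2 * i + 2 by ring, show 2 * i + 2 + 1 = 2 * i + 3 by ring,
    show 2 * (n + 1) + 1 - (2 * i + 2) = 2 * (n + 1) + 2 - 2 * i - 3 by omega]

end Pool.Agent.Helper33.DZ
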